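import Pool.Agent.Helper73.Dn.Goals

/-! Discrete Parseval (goal PARS of the project DN). -/

set_option autoImplicit false

namespace Pool.Agent.Helper76.Dn

open Finset

theorem pars : Pool.Agent.Helper73.Dn.Pars := by
  intro κ _ f hf
  classical
  -- a bound for the differences
  set q : ℕ := (∑ i, ∑ j, (f i - f j).natAbs) + 1 with hq
  have hq0 : 0 < q := Nat.succ_pos _
  have hlt : ∀ i j, (f i - f j).natAbs < q := by
    intro i j
    have h1 : (f i - f j).natAbs ≤ ∑ j, (f i - f j).natAbs :=
      Finset.single_le_sum (f := fun j => (f i - f j).natAbs) (fun _ _ => Nat.zero_le _)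
        (Finset.mem_univ j)
    have h2 : ∑ j, (f i - f j).natAbs ≤ ∑ i, ∑ j, (f i - f j).natAbs :=
      Finset.single_le_sum (f := fun i => ∑ j, (f i - f j).natAbs) (fun _ _ => Nat.zero_le _)
        (Finset.mem_univ i)
    omega
  refine ⟨q, hq0, fun A => ?_⟩
  have hqC : (q : ℂ) ≠ 0 := by exact_mod_cast hq0.ne'
  -- the exponentials
  set e : κ → ℕ → ℂ := fun j h =>
    Complex.exp (2 * Real.pi * (f j * (h / q : ℝ) : ℝ) * Complex.I) with he
  set r : κ → κ → ℂ := fun i j =>
    Complex.exp (2 * Real.pi * ((f i - f j : ℤ) : ℂ) / q * Complex.I) with hr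
  have hee : ∀ i j h, e i h * (starRingEnd ℂ) (e j h) = r i j ^ h := by
    intro i j h
    simp only [he, hr]
    rw [← Complex.exp_conj, ← Complex.exp_add, ← Complex.exp_nat_mul]
    congr 1
    simp only [map_mul, Complex.conj_ofReal, Complex.conj_I, Complex.conj_ofNat]
    push_cast
    ring
  have hgeom : ∀ i j, ∑ h ∈ Finset.range q, r i j ^ h = if i = j then (q : ℂ) else 0 := by
    intro i j
    split_ifs with hij
    · subst hij
      have : r i i = 1 := by simp [hr]
      simp [this]
    · have hne : r i j ≠ 1 := by
        intro h1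
        simp only [hr] at h1
        rw [Complex.exp_eq_one_iff] at h1
        obtain ⟨n, hn⟩ := h1
        have hpi : (2 * Real.pi * Complex.I : ℂ) ≠ 0 := by
          simp [Real.pi_ne_zero]
        have h2 : (((f i - f j : ℤ) : ℂ)) = n * q := by
          have h3 : (2 * Real.pi * Complex.I : ℂ) * (((f i - f j : ℤ) : ℂ)) =
              (2 * Real.pi * Complex.I : ℂ) * (n * q) := by
            have h4 := hn
            field_simp at h4
            linear_combination (2 * (Real.pi : ℂ) * Complex.I) * h4
          exact mul_left_cancel₀ hpi h3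
        have h5 : f i - f j = n * (q : ℤ) := by exact_mod_cast h2
        have h6 := hlt i j
        have h7 : n = 0 := by
          by_contra hn0
          have h8 : 1 ≤ n.natAbs := Int.natAbs_pos.mpr hn0
          have h9 : (f i - f j).natAbs = n.natAbs * q := by
            rw [h5, Int.natAbs_mul, Int.natAbs_natCast]
          nlinarith
        rw [h7] at h5
        apply hij
        apply hf
        linarith
      have hpow : r i j ^ q = 1 := by
        simp only [hr]
        rw [← Complex.exp_nat_mul, Complex.exp_eq_one_iff]
        refine ⟨f i - f j, ?_⟩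
        push_cast
        field_simp
      have h1 := geom_sum_mul (r i j) q
      rw [hpow, sub_self] at h1
      rcases mul_eq_zero.mp h1 with h2 | h2
      · exact h2
      · exact absurd (sub_eq_zero.mp h2) hne
  have key : ((∑ h ∈ Finset.range q, ‖∑ j, A j * e j h‖ ^ 2 : ℝ) : ℂ) =
      ((q * ∑ j, ‖A j‖ ^ 2 : ℝ) : ℂ) := by
    push_cast
    calc ∑ h ∈ Finset.range q, ((‖∑ j, A j * e j h‖ : ℂ)) ^ 2
        = ∑ h ∈ Finset.range q, ∑ i, ∑ j, (A i * (starRingEnd ℂ) (A j)) * r i j ^ h := by
          refine Finset.sum_congr rfl fun h _ => ?_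
          rw [← Complex.mul_conj', map_sum, Finset.sum_mul_sum]
          refine Finset.sum_congr rfl fun i _ => Finset.sum_congr rfl fun j _ => ?_
          rw [← hee i j h, map_mul]
          ring
      _ = ∑ i, ∑ j, (A i * (starRingEnd ℂ) (A j)) * ∑ h ∈ Finset.range q, r i j ^ h := by
          rw [Finset.sum_comm]
          refine Finset.sum_congr rfl fun i _ => ?_
          rw [Finset.sum_comm]
          refine Finset.sum_congr rfl fun j _ => ?_
          rw [Finset.mul_sum]
      _ = q * ∑ j, ((‖A j‖ : ℂ)) ^ 2 := by
          rw [Finset.mul_sum]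
          refine Finset.sum_congr rfl fun i _ => ?_
          simp only [hgeom, mul_ite, mul_zero]
          rw [Finset.sum_ite_eq]
          simp only [Finset.mem_univ, if_true]
          rw [← Complex.mul_conj']
          ring
  exact Complex.ofReal_injective key

end Pool.Agent.Helper76.Dn
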